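import Mathlib.Data.Int.Star
import Mathlib.Algebra.Order.Ring.Star
import Mathlib.Data.Sym.Card
import Mathlib.RingTheory.RootsOfUnity.AlgebraicallyClosed
import Mathlib.FieldTheory.Finite.Extension
import Mathlib.RingTheory.SimpleRing.Principal
import Mathlib.RingTheory.Henselian
import Mathlib.RingTheory.RegularLocalRing.Defs
import Mathlib.Tactic.Polynomial.Basic

namespace Pool.Agent.MP_dfda4f_nt.Kron
open Polynomial

abbrev F := ZMod 2
abbrev K := AlgebraicClosure (ZMod 2)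

lemma exists_root (k : ℕ) (hk : 0 < k) : ∃ a : K, IsPrimitiveRoot a ((2 ^ k + 1) ^ 2) := by
  have : NeZero (((2 ^ k + 1) ^ 2 : ℕ) : K) := ⟨by
    have h2 : (2 : K) = 0 := CharTwo.two_eq_zero
    push_cast
    rw [h2, zero_pow hk.ne']; simp⟩
  exact HasEnoughRootsOfUnity.exists_primitiveRoot K _

section
variable {k : ℕ} {a : K}

/-- `z = a^(q+1)`. -/
noncomputable def z (k : ℕ) (a : K) : K := a ^ (2 ^ k + 1)

/-- The root of the trinomial. -/
noncomputable def rt (k : ℕ) (a : K) : K := (a + a⁻¹) / (z k a + (z k a)⁻¹)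

/-- The `q`-power map. -/
noncomputable def sg (k : ℕ) : K →+* K := iterateFrobenius K 2 k

lemma sg_apply (y : K) : sg k y = y ^ 2 ^ k := iterateFrobenius_def ..

variable (hk : 0 < k) (ha : IsPrimitiveRoot a ((2 ^ k + 1) ^ 2))
include ha

lemma a_ne : a ≠ 0 := ha.ne_zero (by positivity)

lemma z_prim : IsPrimitiveRoot (z k a) (2 ^ k + 1) := ha.pow (by positivity) (sq _)

lemma z_ne : z k a ≠ 0 := (z_prim ha).ne_zero (by positivity)

lemma sg_a : sg k a = z k a * a⁻¹ := by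
  rw [sg_apply, z, pow_succ, mul_assoc, mul_inv_cancel₀ (a_ne ha), mul_one]

lemma sg_z : sg k (z k a) = (z k a)⁻¹ := by
  rw [sg_apply]
  apply eq_inv_of_mul_eq_one_left
  rw [← pow_succ, (z_prim ha).pow_eq_one]

include hk

omit ha in
lemma odd_q : Odd (2 ^ k + 1) := (Nat.even_pow.2 ⟨even_two, hk.ne'⟩).add_one

lemma kap_ne : z k a + (z k a)⁻¹ ≠ 0 := by
  intro h
  have h1 : z k a ^ 2 = 1 := by
    rw [CharTwo.add_eq_zero] at h
    rw [sq]; nth_rewrite 2 [h]; exact mul_inv_cancel₀ (z_ne ha)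
  have h2 := Nat.le_of_dvd two_pos (((z_prim ha).pow_eq_one_iff_dvd 2).1 h1)
  have : 2 ≤ 2 ^ k := by
    calc 2 = 2 ^ 1 := by norm_num
      _ ≤ _ := Nat.pow_le_pow_right (by norm_num) hk
  omega

lemma rt_root : aeval (rt k a) (X ^ (4 ^ k + 1) + X ^ (2 ^ (k + 1)) + 1 : F[X]) = 0 := by
  have e1 : rt k a ^ (4 ^ k + 1) = sg k (sg k (rt k a)) * rt k a := by
    rw [sg_apply, sg_apply, ← pow_mul, ← mul_pow, pow_succ]; norm_num
  have e2 : rt k a ^ (2 ^ (k + 1)) = (sg k (rt k a)) ^ 2 := by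
    rw [sg_apply, ← pow_mul, pow_succ 2 k]
  simp only [map_add, map_pow, aeval_X, map_one, e1, e2]
  simp only [rt, map_div₀, map_add, map_inv₀, map_mul, sg_a ha, sg_z ha, inv_inv]
  have h1 := a_ne ha
  have h2 := z_ne ha
  have h3 := kap_ne hk ha
  have h4 : (z k a)⁻¹ + z k a ≠ 0 := by rwa [add_comm]
  have h5 : (2 : K) = 0 := CharTwo.two_eq_zero
  rw [add_comm (z k a)⁻¹ (z k a)]
  generalize z k a = w at *
  rw [div_mul_div_comm, div_pow, ← sq, ← add_div, div_add_one (pow_ne_zero _ h3), div_eq_zero_iff]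
  left
  field_simp
  linear_combination (a ^ 4 + a ^ 2 + w ^ 4 * a ^ 2 + w ^ 4 + 2 * a ^ 2 * w ^ 2) * h5

omit hk in
lemma tau_a : sg k (sg k a) = (z k a)⁻¹ ^ 2 * a := by
  simp only [map_inv₀, map_mul, sg_a ha, sg_z ha]
  have h1 := a_ne ha
  have h2 := z_ne ha
  field_simp

omit hk in
lemma tau_z : sg k (sg k (z k a)) = z k a := by
  simp only [map_inv₀, sg_z ha, inv_inv]

lemma conj_pow {t : ℕ} (ht : rt k a ^ t = 1) (j : ℕ) :
    (((z k a)⁻¹ ^ j * a + z k a ^ j) ^ 2 / (a * (z k a + (z k a)⁻¹))) ^ t = 1 := by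
  have h1 := a_ne ha
  have h2 := z_ne ha
  have h3 := kap_ne hk ha
  induction j with
  | zero =>
    rw [← ht, rt]
    congr 1
    rw [pow_zero, pow_zero, one_mul, CharTwo.add_sq]
    generalize z k a + (z k a)⁻¹ = w at *
    field_simp
  | succ j ih =>
    have h4 := congrArg (fun y => sg k (sg k y)) ih
    simp only [map_pow, map_div₀, map_mul, map_add, map_inv₀, tau_a ha, tau_z ha, map_one] at h4
    rw [← h4]
    congr 1
    generalize z k a + (z k a)⁻¹ = w at *
    generalize z k a = v at *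
    simp only [inv_pow]
    field_simp
    ring

/-- The polynomial attached to a multiset of indices. -/
noncomputable def pl (w : K) (S : Multiset ℕ) : K[X] :=
  (S.map fun j => C (w⁻¹ ^ j) * (X - C (w ^ (2 * j)))).prod

omit hk ha in
lemma pl_eval {w : K} (hw : w ≠ 0) (S : Multiset ℕ) (y : K) :
    (pl w S).eval y = (S.map fun j => w⁻¹ ^ j * y + w ^ j).prod := by
  rw [pl, eval_multiset_prod, Multiset.map_map]
  congr 1
  refine Multiset.map_congr rfl fun j _ => ?_
  simp only [Function.comp, eval_mul, eval_C, eval_X, CharTwo.sub_eq_add, eval_add,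
    inv_pow]
  field_simp
  ring

omit hk ha in
lemma pl_roots {w : K} (hw : w ≠ 0) (S : Multiset ℕ) :
    (pl w S).roots = S.map fun j => w ^ (2 * j) := by
  rw [pl, Multiset.prod_map_mul]
  have h : (S.map fun j => C (w⁻¹ ^ j)).prod = C (S.map fun j => w⁻¹ ^ j).prod := by
    rw [map_multiset_prod, Multiset.map_map]; rfl
  rw [h, roots_C_mul _ (Multiset.prod_ne_zero (by simp [hw]))]
  have := roots_multiset_prod_X_sub_C (S.map fun j => w ^ (2 * j))
  rwa [Multiset.map_map] at this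

omit hk ha in
lemma pl_deg (w : K) (S : Multiset ℕ) : (pl w S).natDegree ≤ S.card := by
  refine (natDegree_multiset_prod_le _).trans ?_
  rw [Multiset.map_map]
  refine (Multiset.sum_le_card_nsmul _ 1 ?_).trans (by simp)
  intro x hx
  obtain ⟨j, _, rfl⟩ := Multiset.mem_map.1 hx
  exact (natDegree_C_mul_le _ _).trans (natDegree_X_sub_C_le _)

lemma z2_inj : Function.Injective fun j : Fin (2 ^ k + 1) => z k a ^ (2 * (j : ℕ)) := by
  have h : IsPrimitiveRoot (z k a ^ 2) (2 ^ k + 1) :=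
    (z_prim ha).pow_of_coprime 2 (Nat.coprime_two_left.2 (odd_q hk))
  intro i j hij
  simp only [pow_mul] at hij
  exact Fin.ext (h.pow_inj i.2 j.2 hij)

lemma pl_eq {S T : Multiset ℕ} (hS : S.card ≤ 2 ^ k) (hT : T.card ≤ 2 ^ k)
    (h : (pl (z k a) S).eval a = (pl (z k a) T).eval a) : pl (z k a) S = pl (z k a) T := by
  have h2 := z_ne ha
  have key : ∀ i : ℕ, (pl (z k a) S).eval ((z k a ^ (2 * i))⁻¹ * a) =
      (pl (z k a) T).eval ((z k a ^ (2 * i))⁻¹ * a) := by
    intro i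
    induction i with
    | zero => simpa using h
    | succ i ih =>
      have h4 := congrArg (fun y => sg k (sg k y)) ih
      simp only [pl_eval h2, map_multiset_prod, Multiset.map_map, Function.comp_def, map_pow,
        map_mul, map_add, map_inv₀, tau_a ha, tau_z ha] at h4 ⊢
      have e : (z k a ^ (2 * (i + 1)))⁻¹ * a = (z k a ^ (2 * i))⁻¹ * ((z k a)⁻¹ ^ 2 * a) := by
        field_simp; ring
      rw [e, h4]
  refine eq_of_natDegree_lt_card_of_eval_eq _ _
    (f := fun j : Fin (2 ^ k + 1) => (z k a ^ (2 * (j : ℕ)))⁻¹ * a) ?_ (fun i => key i) ?_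
  · intro i j hij
    exact z2_inj hk ha (inv_injective (mul_right_cancel₀ (a_ne ha) hij))
  · have := pl_deg (z k a) S
    have := pl_deg (z k a) T
    rw [Fintype.card_fin]; omega

lemma order_le {t : ℕ} (h0 : 0 < t) (ht : rt k a ^ t = 1) : (2 * 2 ^ k).choose (2 ^ k) ≤ t := by
  classical
  have h1 := a_ne ha
  have h2 := z_ne ha
  have h3 := kap_ne hk ha
  have hle := Finset.card_le_card_of_injOn (s := Finset.univ) (t := (nthRoots t (1 : K)).toFinset)
    (fun S : Sym (Fin (2 ^ k + 1)) (2 ^ k) => ((S.1.map Fin.val).map fun j =>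
      ((z k a)⁻¹ ^ j * a + z k a ^ j) ^ 2 / (a * (z k a + (z k a)⁻¹))).prod) (by
      intro S _
      simp only [Finset.mem_coe, Multiset.mem_toFinset, mem_nthRoots h0]
      rw [← Multiset.prod_map_pow]
      exact Multiset.prod_eq_one fun y hy => by
        obtain ⟨j, _, rfl⟩ := Multiset.mem_map.1 hy
        exact conj_pow hk ha ht j) (by
      intro S _ T _ h
      have hS : (S.1.map Fin.val).card = 2 ^ k := by rw [Multiset.card_map, S.2]
      have hT : (T.1.map Fin.val).card = 2 ^ k := by rw [Multiset.card_map, T.2]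
      simp only [Multiset.prod_map_div, Multiset.prod_map_pow, Multiset.map_const',
        Multiset.prod_replicate, hS, hT, ← pl_eval h2] at h
      rw [div_left_inj' (pow_ne_zero _ (mul_ne_zero h1 h3)), CharTwo.sq_inj] at h
      have h5 := congrArg roots (pl_eq hk ha hS.le hT.le h)
      rw [pl_roots h2, pl_roots h2, Multiset.map_map, Multiset.map_map] at h5
      exact Subtype.ext (Multiset.map_injective (z2_inj hk ha) h5))
  have h6 := (Multiset.toFinset_card_le _).trans (card_nthRoots t (1 : K))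
  rw [Finset.card_univ, Sym.card_sym_eq_choose, Fintype.card_fin,
    show 2 ^ k + 1 + 2 ^ k - 1 = 2 * 2 ^ k by omega] at hle
  omega

omit hk ha in
lemma pow_pred (m : ℤ) (u : ℕ) : ∃ c : ℤ, (m - 1) ^ u = (-1) ^ u * (1 - u * m) + c * m ^ 2 := by
  induction u with
  | zero => exact ⟨0, by simp⟩
  | succ u ih =>
    obtain ⟨c, hc⟩ := ih
    refine ⟨c * (m - 1) - (-1) ^ u * u, ?_⟩
    rw [pow_succ, hc]; push_cast; ring

omit ha in
lemma arith {n : ℕ} {e : ℤ} (he : e = 1 ∨ e = -1) (h : ((2 : ℤ) ^ k + 1) ^ 2 ∣ 2 ^ n - e) :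
    k * (2 ^ k + 1) ∣ n := by
  obtain ⟨u, v, hv, rfl⟩ : ∃ u v, v < k ∧ n = k * u + v :=
    ⟨n / k, n % k, Nat.mod_lt _ hk, (Nat.div_add_mod n k).symm⟩
  obtain ⟨c, hc⟩ := pow_pred (2 ^ k + 1) u
  rw [add_sub_cancel_right] at hc
  rw [pow_add, pow_mul, hc] at h
  have hlt : (2 : ℤ) ^ v < 2 ^ k := pow_lt_pow_right₀ (by norm_num) hv
  have hpos : (1 : ℤ) ≤ 2 ^ v := one_le_pow₀ (by norm_num)
  have hs : ((-1 : ℤ)) ^ u = 1 ∨ ((-1 : ℤ)) ^ u = -1 := neg_one_pow_eq_or ℤ u
  have hm : ((2 ^ k + 1 : ℕ) : ℤ) = 2 ^ k + 1 := by push_cast; ring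
  generalize ((-1 : ℤ)) ^ u = s at *
  generalize (2 : ℤ) ^ k + 1 = m at *
  have hm2 : 2 ^ v + 1 < m := by rw [← hm]; push_cast; omega
  have h1 : m ∣ s * 2 ^ v - e := by
    have h2 : m ∣ (s * (1 - u * m) + c * m ^ 2) * 2 ^ v - e := (dvd_pow_self m two_ne_zero).trans h
    have h3 : s * 2 ^ v - e = (s * (1 - u * m) + c * m ^ 2) * 2 ^ v - e +
      m * (s * u * 2 ^ v - c * m * 2 ^ v) := by ring
    rw [h3]; exact dvd_add h2 (dvd_mul_right _ _)
  have h2 : s * 2 ^ v - e = 0 := by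
    refine Int.eq_zero_of_abs_lt_dvd h1 (abs_lt.2 ?_)
    rcases hs with rfl | rfl <;> rcases he with rfl | rfl <;> constructor <;> omega
  have h3 : (2 : ℤ) ^ v = 1 := by
    rcases hs with rfl | rfl <;> rcases he with rfl | rfl <;> omega
  have h4 : v = 0 := by
    by_contra h4
    have := one_lt_pow₀ (a := (2 : ℤ)) (by norm_num) h4
    omega
  subst h4
  rw [pow_zero, mul_one, sub_eq_zero] at h2
  subst h2
  have h5 : m ^ 2 ∣ m * (s * u) := by
    have h6 : m * (s * u) = c * m ^ 2 - ((s * (1 - u * m) + c * m ^ 2) * 2 ^ 0 - s) := by ring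
    rw [h6]; exact dvd_sub (dvd_mul_left _ _) h
  rw [sq, mul_dvd_mul_iff_left (by omega)] at h5
  have h6 : m ∣ u := by rcases hs with rfl | rfl <;> simpa using h5
  rw [← hm, Int.natCast_dvd_natCast] at h6
  exact mul_dvd_mul_left k h6

lemma rt_ne : rt k a ≠ 0 := by
  intro h
  have := rt_root hk ha
  rw [h] at this
  simp at this

lemma kap_eq : (z k a + (z k a)⁻¹) * sg k (rt k a) = sg k (sg k (rt k a)) + rt k a := by
  simp only [rt, map_div₀, map_add, map_inv₀, map_mul, sg_a ha, sg_z ha, inv_inv]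
  have h1 := a_ne ha
  have h2 := z_ne ha
  have h3 := kap_ne hk ha
  rw [add_comm (z k a)⁻¹ (z k a), ← add_div, ← mul_div_assoc, div_left_inj' h3]
  field_simp
  ring

lemma fix_dvd {n : ℕ} (h : rt k a ^ 2 ^ n = rt k a) : k * (2 ^ k + 1) ∣ n := by
  have h1 := a_ne ha
  have h3 := kap_ne hk ha
  have hc : ∀ y : K, sg n (sg k y) = sg k (sg n y) := fun y => by
    simp only [sg_apply, ← pow_mul, mul_comm]
  rw [← sg_apply] at h
  have h4 := congrArg (sg n) (kap_eq hk ha)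
  rw [map_mul, map_add (sg n) (sg k _), hc, hc, hc, h, ← kap_eq hk ha] at h4
  have h5 := mul_right_cancel₀ ((map_ne_zero (sg k)).2 (rt_ne hk ha)) h4
  rw [rt, map_div₀, h5, div_left_inj' h3, map_add, map_inv₀, sg_apply] at h
  have h6 : a ^ 2 ^ n ≠ 0 := pow_ne_zero _ h1
  have h7 : (a ^ 2 ^ n - a) * (a ^ 2 ^ n * a - 1) = 0 := by
    generalize a ^ 2 ^ n = b at *
    field_simp at h
    linear_combination h
  rcases mul_eq_zero.1 h7 with h8 | h8
  · refine arith hk (Or.inl rfl) ?_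
    have := (ha.zpow_eq_one_iff_dvd (2 ^ n - 1)).1 (by
      rw [zpow_sub₀ h1, zpow_one, div_eq_one_iff_eq h1, ← sub_eq_zero]; exact_mod_cast h8)
    exact_mod_cast this
  · refine arith hk (Or.inr rfl) ?_
    have := (ha.zpow_eq_one_iff_dvd (2 ^ n - (-1))).1 (by
      rw [sub_neg_eq_add, zpow_add₀ h1, zpow_one, ← sub_eq_zero]; exact_mod_cast h8)
    exact_mod_cast this

lemma fix_self : rt k a ^ 2 ^ (k * (2 ^ k + 1)) = rt k a := by
  have h1 := a_ne ha
  have h2 : a ^ 2 ^ (k * (2 ^ k + 1)) = a⁻¹ := by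
    apply eq_inv_of_mul_eq_one_left
    rw [← pow_succ, ha.pow_eq_one_iff_dvd, ← Int.natCast_dvd_natCast]
    obtain ⟨c, hc⟩ := pow_pred (2 ^ k + 1) (2 ^ k + 1)
    rw [add_sub_cancel_right, (odd_q hk).neg_one_pow] at hc
    refine ⟨c + 1, ?_⟩
    push_cast at hc ⊢
    rw [pow_mul, hc]; ring
  have h3 : z k a ^ 2 ^ (k * (2 ^ k + 1)) = (z k a)⁻¹ := by
    rw [z, ← pow_mul, mul_comm, pow_mul, h2, inv_pow]
  rw [← sg_apply] at h2 h3 ⊢
  simp only [rt, map_div₀, map_add, map_inv₀, h2, h3, inv_inv]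
  rw [add_comm a⁻¹, add_comm (z k a)⁻¹]

lemma rt_degree : (minpoly F (rt k a)).natDegree = k * (2 ^ k + 1) := by
  have hi : IsIntegral F (rt k a) := Algebra.IsIntegral.isIntegral _
  have key : ∀ n, (minpoly F (rt k a)).natDegree ∣ n ↔ rt k a ^ 2 ^ n = rt k a := fun n => by
    rw [(minpoly.irreducible hi).natDegree_dvd_iff_dvd_X_pow_card_pow_sub_X, minpoly.dvd_iff]
    simp [sub_eq_zero]
  exact Nat.dvd_antisymm ((key _).2 (fix_self hk ha)) (fix_dvd hk ha ((key _).1 dvd_rfl))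

end

end Pool.Agent.MP_dfda4f_nt.Kron
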