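import Mathlib.Algebra.Algebra.IsSimpleRing
import Mathlib.Algebra.Lie.OfAssociative
import Mathlib.RingTheory.Flat.TorsionFree
import Mathlib.Algebra.Order.Ring.Star
import Mathlib.Algebra.Polynomial.OfFn
import Mathlib.FieldTheory.Finite.Extension
import Mathlib.RingTheory.SimpleRing.Principal
import Mathlib.RingTheory.Henselian
import Mathlib.RingTheory.RegularLocalRing.Defs
import Mathlib.Tactic.Polynomial.Basic

namespace Pool.Agent.MP_dfda4f_nt
open Polynomial

abbrev F := ZMod 2
abbrev K := AlgebraicClosure (ZMod 2)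

/-- The linearized associate: `X^i` goes to `X^(2^i)`. -/
noncomputable def lin : F[X] →ₗ[F] F[X] := lsum fun i => monomial (2 ^ i)

lemma lin_monomial (i : ℕ) (a : F) : lin (monomial i a) = monomial (2 ^ i) a := by
  simp [lin, lsum_apply, sum_monomial_index]

lemma lin_coeff (A : F[X]) (i : ℕ) : (lin A).coeff (2 ^ i) = A.coeff i := by
  induction A using Polynomial.induction_on' with
  | add p q hp hq => simp [hp, hq]
  | monomial j a =>
    rw [lin_monomial, coeff_monomial, coeff_monomial]
    simp [Nat.pow_right_injective (le_refl 2) |>.eq_iff]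

lemma lin_coeff_zero (A : F[X]) : (lin A).coeff 0 = 0 := by
  induction A using Polynomial.induction_on' with
  | add p q hp hq => simp [hp, hq]
  | monomial j a =>
    rw [lin_monomial, coeff_monomial, if_neg (by positivity)]

lemma lin_natDegree_le (A : F[X]) : (lin A).natDegree ≤ 2 ^ A.natDegree := by
  rw [lin, lsum_apply, sum_def]
  refine natDegree_sum_le_of_forall_le _ _ fun i hi => (natDegree_monomial_le _).trans ?_
  exact Nat.pow_le_pow_right (by norm_num) (le_natDegree_of_mem_supp i hi)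

/-- Frobenius as a linear endomorphism of the algebraic closure. -/
noncomputable def fr : Module.End F K := (FiniteField.frobeniusAlgHom F K).toLinearMap

lemma fr_pow (i : ℕ) (v : K) : (fr ^ i) v = v ^ 2 ^ i := by
  induction i with
  | zero => simp
  | succ i ih =>
    rw [pow_succ', Module.End.mul_apply, ih]
    simp [fr, pow_succ, pow_mul]

/-- The action of `F[X]` on `K` through Frobenius. -/
noncomputable def act (A : F[X]) (v : K) : K := aeval fr A v

lemma act_mul (A B : F[X]) (v : K) : act (A * B) v = act A (act B v) := by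
  simp [act]

lemma act_comm (A B : F[X]) (v : K) : act A (act B v) = act B (act A v) := by
  rw [← act_mul, mul_comm, act_mul]

lemma act_zero (A : F[X]) : act A 0 = 0 := by simp [act]

lemma act_add (A : F[X]) (v w : K) : act A (v + w) = act A v + act A w := by simp [act]

lemma add_act (A B : F[X]) (v : K) : act (A + B) v = act A v + act B v := by simp [act]

lemma one_act (v : K) : act 1 v = v := by simp [act]

lemma X_pow_act (i : ℕ) (v : K) : act (X ^ i) v = v ^ 2 ^ i := by simp [act, fr_pow]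

lemma act_eq (A : F[X]) (v : K) : act A v = aeval v (lin A) := by
  induction A using Polynomial.induction_on' with
  | add p q hp hq => rw [add_act, hp, hq, map_add, map_add]
  | monomial j a =>
    rw [lin_monomial, aeval_monomial, act, aeval_monomial, Module.End.mul_apply, fr_pow,
      Module.algebraMap_end_apply, Algebra.smul_def]

lemma act_surj {p : F[X]} (hp : p ≠ 0) (w : K) : ∃ u, act p u = w := by
  have h : ((lin p).map (algebraMap F K) - C w).degree ≠ 0 := by
    intro h
    have h2 := coeff_eq_zero_of_natDegree_lt (p := (lin p).map (algebraMap F K) - C w)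
      (n := 2 ^ p.natDegree) (by rw [natDegree_eq_of_degree_eq_some h]; positivity)
    rw [coeff_sub, coeff_map, lin_coeff, coeff_C, if_neg (by positivity), sub_zero,
      map_eq_zero, coeff_natDegree, leadingCoeff_eq_zero] at h2
    exact hp h2
  obtain ⟨u, hu⟩ := IsAlgClosed.exists_root _ h
  refine ⟨u, ?_⟩
  rw [IsRoot.def, eval_sub, eval_C, eval_map_algebraMap, sub_eq_zero] at hu
  rw [act_eq, hu]

lemma act_root {p : F[X]} (hd : 0 < p.natDegree) (h0 : p.coeff 0 ≠ 0) :
    ∃ w, w ≠ 0 ∧ act p w = 0 := by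
  have hp : p ≠ 0 := by rintro rfl; simp at h0
  have hX : X * (lin p).divX = lin p := by
    have := X_mul_divX_add (lin p)
    rwa [lin_coeff_zero, C_0, add_zero] at this
  have h1 : 2 ≤ 2 ^ p.natDegree := by
    calc 2 = 2 ^ 1 := by norm_num
      _ ≤ _ := Nat.pow_le_pow_right (by norm_num) hd
  have h : ((lin p).divX).degree ≠ 0 := by
    intro h
    have h2 := coeff_eq_zero_of_natDegree_lt (p := (lin p).divX)
      (n := 2 ^ p.natDegree - 1) (by rw [natDegree_eq_zero_iff_degree_le_zero.2 h.le]; omega)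
    rw [coeff_divX, Nat.sub_add_cancel (by omega), lin_coeff, coeff_natDegree,
      leadingCoeff_eq_zero] at h2
    exact hp h2
  obtain ⟨u, hu⟩ := IsAlgClosed.exists_aeval_eq_zero K _ h
  refine ⟨u, ?_, ?_⟩
  · rintro rfl
    rw [← coeff_zero_eq_aeval_zero', coeff_divX, map_eq_zero] at hu
    have := lin_coeff p 0
    rw [pow_zero] at this
    exact h0 (this ▸ hu)
  · rw [act_eq, ← hX, map_mul, hu, mul_zero]

/-- A generator of the module of roots of the linearized associate. -/
lemma exists_gen (A : F[X]) : A.coeff 0 ≠ 0 → ∃ v, ∀ B, act B v = 0 ↔ A ∣ B := by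
  induction A using WfDvdMonoid.induction_on_irreducible with
  | zero => simp
  | unit u hu => exact fun _ => ⟨0, fun B => by simp [act_zero, hu.dvd]⟩
  | mul a p ha hp ih =>
    intro h0
    rw [mul_coeff_zero] at h0
    obtain ⟨v, hv⟩ := ih (right_ne_zero_of_mul h0)
    have hav : act a v = 0 := (hv a).2 dvd_rfl
    by_cases hpa : p ∣ a
    · obtain ⟨u, hu⟩ := act_surj hp.ne_zero v
      refine ⟨u, fun B => ⟨fun hB => ?_, ?_⟩⟩
      · have h1 : a ∣ B := (hv B).1 (by rw [← hu, act_comm, hB, act_zero])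
        obtain ⟨B', rfl⟩ := hpa.trans h1
        rw [act_mul, act_comm, hu] at hB
        exact mul_dvd_mul_left _ ((hv B').1 hB)
      · rintro ⟨c, rfl⟩
        rw [show p * a * c = c * (a * p) by ring, act_mul, act_mul, hu, hav, act_zero]
    · obtain ⟨w, hw0, hw⟩ := act_root hp.natDegree_pos (left_ne_zero_of_mul h0)
      have hco : IsCoprime p a := hp.coprime_iff_not_dvd.2 hpa
      refine ⟨v + w, fun B => ⟨fun hB => ?_, ?_⟩⟩
      · rw [act_add] at hB
        have h1 : act (p * B) v = 0 := by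
          have := congrArg (act p) hB
          rwa [act_add, act_comm p B w, hw, act_zero, act_zero, add_zero, ← act_mul] at this
        have h2 : a ∣ B := hco.symm.dvd_of_dvd_mul_left ((hv _).1 h1)
        rw [(hv B).2 h2, zero_add] at hB
        have h3 : p ∣ B := by
          by_contra h3
          obtain ⟨x, y, hxy⟩ := hp.coprime_iff_not_dvd.2 h3
          apply hw0
          rw [← one_act w, ← hxy, add_act, act_mul, act_mul, hw, hB, act_zero, act_zero, add_zero]
        exact hco.mul_dvd h3 h2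
      · rintro ⟨c, rfl⟩
        rw [act_add, show p * a * c = (c * p) * a by ring, act_mul, hav, act_zero,
          show c * p * a = (c * a) * p by ring, act_mul, hw, act_zero, add_zero]

/-- The degree of a generator is a period of `X` modulo `f`. -/
lemma gen_degree {f : F[X]} {v : K} (hv : ∀ B, act B v = 0 ↔ f ∣ B) :
    f ∣ X ^ (minpoly F v).natDegree + 1 := by
  have hi : IsIntegral F v := Algebra.IsIntegral.isIntegral v
  have h := ((minpoly.irreducible hi).natDegree_dvd_iff_dvd_X_pow_card_pow_sub_X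
    (n := (minpoly F v).natDegree)).1 dvd_rfl
  have h2 := aeval_eq_zero_of_dvd_aeval_eq_zero h (minpoly.aeval F v)
  rw [← hv, add_act, X_pow_act, one_act, ← CharTwo.sub_eq_add]
  simpa using h2

/-- The family of the `2^k` polynomials of degree `k+1` with constant term `1`. -/
noncomputable def fam (k : ℕ) (c : Fin k → F) : F[X] := X ^ (k + 1) + (X * ofFn k c + 1)

lemma fam_low (k : ℕ) (c : Fin k → F) : (X * ofFn k c + 1 : F[X]).degree < (k + 1 : ℕ) := by
  rw [degree_lt_iff_coeff_zero]
  intro m hm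
  obtain ⟨m, rfl⟩ : ∃ m', m = m' + 1 := ⟨m - 1, by omega⟩
  rw [coeff_add, coeff_X_mul, ofFn_coeff_eq_zero_of_ge _ (by omega), coeff_one]
  simp

lemma fam_monic (k : ℕ) (c : Fin k → F) : (fam k c).Monic := monic_X_pow_add (fam_low k c)

lemma fam_natDegree (k : ℕ) (c : Fin k → F) : (fam k c).natDegree = k + 1 := by
  apply natDegree_eq_of_degree_eq_some
  rw [fam, degree_add_eq_left_of_degree_lt (by rw [degree_X_pow]; exact fam_low k c), degree_X_pow]

lemma fam_coeff_zero (k : ℕ) (c : Fin k → F) : (fam k c).coeff 0 ≠ 0 := by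
  simp [fam, coeff_X_pow]

lemma fam_inj (k : ℕ) : Function.Injective (fam k) := by
  intro c d h
  simp only [fam, add_right_inj, add_left_inj] at h
  exact injective_ofFn k (mul_left_cancel₀ X_ne_zero h)

lemma lin_fam_ne (k : ℕ) (c : Fin k → F) : lin (fam k c) ≠ 0 := by
  intro h
  have := lin_coeff (fam k c) 0
  rw [h, coeff_zero] at this
  exact fam_coeff_zero k c this.symm

lemma prod_sub {k : ℕ} {S T : Finset (Fin k → F)}
    (h : ∏ c ∈ S, lin (fam k c) = ∏ c ∈ T, lin (fam k c)) : S ⊆ T := by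
  intro c hc
  obtain ⟨v, hv⟩ := exists_gen _ (fam_coeff_zero k c)
  have h1 : aeval v (∏ c ∈ T, lin (fam k c)) = 0 := by
    rw [← h, map_prod]
    exact Finset.prod_eq_zero hc (by rw [← act_eq]; exact (hv _).2 dvd_rfl)
  rw [map_prod, Finset.prod_eq_zero_iff] at h1
  obtain ⟨d, hd, h2⟩ := h1
  rw [← act_eq, hv] at h2
  have := eq_of_monic_of_dvd_of_natDegree_le (fam_monic k c) (fam_monic k d) h2
    (by rw [fam_natDegree, fam_natDegree])
  rwa [← fam_inj k this]

lemma prod_deg {k : ℕ} (S : Finset (Fin k → F)) :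
    (∏ c ∈ S, lin (fam k c)).natDegree ≤ 2 ^ (2 * k + 1) := by
  refine (natDegree_prod_le _ _).trans ?_
  refine (Finset.sum_le_card_nsmul _ _ (2 ^ (k + 1)) fun c _ => ?_).trans ?_
  · simpa [fam_natDegree] using lin_natDegree_le (fam k c)
  · have : S.card ≤ 2 ^ k := by simpa using S.card_le_univ
    calc S.card • 2 ^ (k + 1) ≤ 2 ^ k * 2 ^ (k + 1) := Nat.mul_le_mul_right _ this
      _ = _ := by ring

/-- Main counting lemma. -/
lemma count {f : F[X]} (h0 : f.coeff 0 ≠ 0) {k : ℕ}
    (hf : ∀ t, 0 < t → t ≤ 2 ^ (2 * k + 1) → ¬ f ∣ X ^ t + 1) {t : ℕ} (ht : 0 < t)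
    (hw : ∀ w : K, w ≠ 0 → act f w = 0 → w ^ t = 1) : 2 ^ 2 ^ k ≤ t := by
  classical
  obtain ⟨v, hv⟩ := exists_gen f h0
  have hi : IsIntegral F v := Algebra.IsIntegral.isIntegral v
  have hd : 2 ^ (2 * k + 1) < (minpoly F v).natDegree := by
    by_contra hd
    exact hf _ (minpoly.natDegree_pos hi) (not_lt.1 hd) (gen_degree hv)
  have key : ∀ p : F[X], p.natDegree ≤ 2 ^ (2 * k + 1) → aeval v p = 0 → p = 0 := by
    intro p hp h
    by_contra hne
    have := natDegree_le_of_dvd (minpoly.dvd F v h) hne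
    omega
  have hroot : ∀ c, (aeval v (lin (fam k c))) ^ t = 1 := by
    intro c
    apply hw
    · intro h
      refine lin_fam_ne k c (key _ ?_ h)
      simpa using prod_deg {c}
    · rw [← act_eq, act_comm, (hv f).2 dvd_rfl, act_zero]
  have hle := Finset.card_le_card_of_injOn (s := Finset.univ) (t := (nthRoots t (1 : K)).toFinset)
    (fun S : Finset (Fin k → F) => aeval v (∏ c ∈ S, lin (fam k c))) (by
      intro S _
      simp only [Finset.mem_coe, Multiset.mem_toFinset, mem_nthRoots ht]
      rw [map_prod, ← Finset.prod_pow]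
      exact Finset.prod_eq_one fun c _ => hroot c) (by
      intro S _ T _ h
      have h2 := key (∏ c ∈ S, lin (fam k c) - ∏ c ∈ T, lin (fam k c))
        ((natDegree_sub_le _ _).trans (max_le (prod_deg S) (prod_deg T)))
        (by rw [map_sub, sub_eq_zero]; exact h)
      rw [sub_eq_zero] at h2
      exact Finset.Subset.antisymm (prod_sub h2) (prod_sub h2.symm))
  have h3 := (Multiset.toFinset_card_le _).trans (card_nthRoots t (1 : K))
  simp only [Finset.card_univ, Fintype.card_finset, Fintype.card_pi, ZMod.card,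
    Finset.prod_const, Fintype.card_fin] at hle
  omega

lemma tri_coeff {n a : ℕ} (hn : 0 < n) (ha : 0 < a) :
    (X ^ n + X ^ a + 1 : F[X]).coeff 0 ≠ 0 := by
  simp [coeff_X_pow, hn.ne, ha.ne]

lemma tri_root {n a : ℕ} {w : K} (hw : w ≠ 0) (h : act (X ^ n + X ^ a + 1) w = 0) :
    aeval w (X ^ (2 ^ n - 1) + X ^ (2 ^ a - 1) + 1 : F[X]) = 0 := by
  rw [add_act, add_act, X_pow_act, X_pow_act, one_act] at h
  apply mul_left_cancel₀ hw
  have e : ∀ j : ℕ, w * w ^ (2 ^ j - 1) = w ^ 2 ^ j := fun j => by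
    rw [← pow_succ', Nat.sub_add_cancel Nat.one_le_two_pow]
  simp only [map_add, map_pow, aeval_X, map_one, mul_add, e, mul_one, mul_zero, h]

/-- Lifting of lower bounds for the order. -/
lemma lift_order {n a k : ℕ} (hn : 0 < n) (ha : 0 < a)
    (hf : ∀ t, 0 < t → t ≤ 2 ^ (2 * k + 1) → ¬ (X ^ n + X ^ a + 1 : F[X]) ∣ X ^ t + 1)
    (t : ℕ) (ht : 0 < t) (h : (X ^ (2 ^ n - 1) + X ^ (2 ^ a - 1) + 1 : F[X]) ∣ X ^ t + 1) :
    2 ^ 2 ^ k ≤ t := by
  refine count (tri_coeff hn ha) hf ht fun w hw0 hw => ?_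
  have := aeval_eq_zero_of_dvd_aeval_eq_zero h (tri_root hw0 hw)
  rw [← sub_eq_zero, CharTwo.sub_eq_add]
  simpa using this

/-- Lifting to a large irreducible factor. -/
lemma lift_factor {n a s : ℕ} (hn : 0 < n) (ha : 0 < a) (hs : 0 < s)
    (hf : ∀ t, 0 < t → t ≤ s → ¬ (X ^ n + X ^ a + 1 : F[X]) ∣ X ^ t + 1) :
    ∃ p : F[X], Irreducible p ∧ p ∣ X ^ (2 ^ n - 1) + X ^ (2 ^ a - 1) + 1 ∧ s < p.natDegree := by
  obtain ⟨v, hv⟩ := exists_gen _ (tri_coeff hn ha)
  have hi : IsIntegral F v := Algebra.IsIntegral.isIntegral v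
  have hv0 : v ≠ 0 := by
    rintro rfl
    exact hf 1 one_pos hs ((hv _).1 (act_zero _))
  refine ⟨minpoly F v, minpoly.irreducible hi,
    minpoly.dvd F v (tri_root hv0 ((hv _).2 dvd_rfl)), ?_⟩
  by_contra hd
  exact hf _ (minpoly.natDegree_pos hi) (not_lt.1 hd) (gen_degree hv)

end Pool.Agent.MP_dfda4f_nt
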