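import Mathlib.Topology.Sheaves.Presheaf
import Mathlib.Tactic.Bound
import Pool.Agent.MP_dfda4f_nt.Lift

namespace Pool.Agent.MP_dfda4f_nt
open Polynomial

def step (s : ℕ) : ℕ := s / 2 + ((s + s / 2) % 2) * 16384

def st : ℕ → ℕ
  | 0 => 1
  | i + 1 => step (st i)

def chk : ℕ → ℕ → Bool
  | 0, _ => true
  | n + 1, s => (step s != 1) && chk n (step s)

lemma chk_spec (n : ℕ) : ∀ i, chk n (st i) = true → ∀ t, 0 < t → t ≤ n → st (i + t) ≠ 1 := by
  induction n with
  | zero => intro i _ t h1 h2; omega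
  | succ n ih =>
    intro i h t h1 h2
    simp only [chk, Bool.and_eq_true, bne_iff_ne] at h
    rcases Nat.lt_or_ge 1 t with h3 | h3
    · have := ih (i + 1) h.2 (t - 1) (by omega) (by omega)
      rwa [show i + 1 + (t - 1) = i + t by omega] at this
    · obtain rfl : t = 1 := by omega
      exact h.1

lemma chk_true : chk 8192 1 = true := by decide +kernel

lemma st_lt (i : ℕ) : st i < 32768 := by
  induction i with
  | zero => decide
  | succ i ih => simp only [st, step]; omega

lemma step_bit (s : ℕ) {j : ℕ} (hj : j < 14) :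
    step s / 2 ^ j % 2 = s / 2 ^ (j + 1) % 2 := by
  obtain ⟨i, hi⟩ : ∃ i, 14 = j + 1 + i := ⟨13 - j, by omega⟩
  have h : (s + s / 2) % 2 * 16384 = 2 ^ j * (2 * ((s + s / 2) % 2 * 2 ^ i)) := by
    rw [show 16384 = 2 ^ 14 by norm_num, hi]; ring
  rw [step, h, Nat.add_mul_div_left _ _ (by positivity), Nat.add_mul_mod_self_left,
    Nat.div_div_eq_div_mul, ← pow_succ']

lemma bits_eq (n : ℕ) : ∀ a b : ℕ, a < 2 ^ n → b < 2 ^ n →
    (∀ j, j < n → a / 2 ^ j % 2 = b / 2 ^ j % 2) → a = b := by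
  induction n with
  | zero => intro a b ha hb _; omega
  | succ n ih =>
    intro a b ha hb h
    have h0 := h 0 (by omega)
    have h1 := ih (a / 2) (b / 2) (by omega) (by omega) fun j hj => by
      have := h (j + 1) (by omega)
      rwa [pow_succ', ← Nat.div_div_eq_div_mul, ← Nat.div_div_eq_div_mul] at this
    omega

lemma st_bit (j : ℕ) (hj : j < 15) : ∀ i, st (i + j) % 2 = st i / 2 ^ j % 2 := by
  induction j with
  | zero => simp
  | succ j ih =>
    intro i
    rw [show i + (j + 1) = (i + 1) + j by ring, ih (by omega), st, step_bit _ (by omega)]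

def u (i : ℕ) : F := ((st i % 2 : ℕ) : F)

lemma u_rec (i : ℕ) : u (i + 15) + u (i + 1) + u i = 0 := by
  have h1 := st_bit 14 (by norm_num) (i + 1)
  have h2 := st_bit 1 (by norm_num) i
  have h3 := st_lt i
  have h4 : st (i + 1) = step (st i) := rfl
  have h5 : 2 ∣ st (i + 15) % 2 + st (i + 1) % 2 + st i % 2 := by
    rw [show i + 15 = i + 1 + 14 by ring, h1, h2, h4]
    have h6 : step (st i) / 2 ^ 14 = (st i + st i / 2) % 2 := by
      rw [step, show 2 ^ 14 = 16384 by norm_num, Nat.add_mul_div_right _ _ (by norm_num),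
        Nat.div_eq_of_lt (a := st i / 2) (by omega), zero_add]
    rw [h6]
    omega
  have := (ZMod.natCast_eq_zero_iff _ 2).2 h5
  simpa only [u, Nat.cast_add] using this

noncomputable def sh : Module.End F (ℕ → F) := LinearMap.funLeft F F (· + 1)

lemma sh_pow (i : ℕ) (w : ℕ → F) (j : ℕ) : (sh ^ i) w j = w (j + i) := by
  induction i generalizing w with
  | zero => simp
  | succ i ih => rw [pow_succ, Module.End.mul_apply, ih]; simp [sh, add_assoc]

lemma base (t : ℕ) (h1 : 0 < t) (h2 : t ≤ 8192) : ¬ (X ^ 15 + X ^ 1 + 1 : F[X]) ∣ X ^ t + 1 := by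
  rintro ⟨h, hh⟩
  have h3 : aeval sh (X ^ 15 + X ^ 1 + 1 : F[X]) u = 0 := by
    funext j
    simp only [map_add, map_pow, aeval_X, map_one, LinearMap.add_apply, Pi.add_apply, sh_pow,
      Module.End.one_apply]
    exact u_rec j
  have h4 : aeval sh (X ^ t + 1 : F[X]) u = 0 := by
    rw [hh, mul_comm, map_mul, Module.End.mul_apply, h3, map_zero]
  have h5 : ∀ j, j < 15 → st t / 2 ^ j % 2 = 1 / 2 ^ j % 2 := by
    intro j hj
    have := congrFun h4 j
    simp only [map_add, map_pow, aeval_X, map_one, LinearMap.add_apply, Pi.add_apply, sh_pow,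
      Module.End.one_apply, Pi.zero_apply, u] at this
    rw [← Nat.cast_add, ZMod.natCast_eq_zero_iff, add_comm j t, st_bit j hj] at this
    have h6 := st_bit j hj 0
    rw [zero_add, show st 0 = 1 from rfl] at h6
    omega
  apply chk_spec 8192 0 chk_true t h1 h2
  rw [zero_add]
  exact bits_eq 15 _ _ (st_lt t) (by norm_num) h5

/-- The degrees `15, 2^15 - 1, 2^(2^15 - 1) - 1, ...`. -/
def dg (r : ℕ) : ℕ := (fun x => 2 ^ x - 1)^[r] 15

/-- Iterated exponential. -/
def ex (r x : ℕ) : ℕ := (fun x => 2 ^ x)^[r] x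

lemma dg_succ (r : ℕ) : dg (r + 1) = 2 ^ dg r - 1 := Function.iterate_succ_apply' _ _ _

lemma ex_succ (r x : ℕ) : ex (r + 1) x = 2 ^ ex r x := Function.iterate_succ_apply' _ _ _

lemma ex_succ' (r x : ℕ) : ex (r + 1) x = ex r (2 ^ x) := Function.iterate_succ_apply _ _ _

lemma ex_add (i j x : ℕ) : ex (j + i) x = ex j (ex i x) := Function.iterate_add_apply _ _ _ _

lemma ex_mono (r : ℕ) {x y : ℕ} (h : x ≤ y) : ex r x ≤ ex r y := by
  induction r with
  | zero => exact h
  | succ r ih => rw [ex_succ, ex_succ]; exact Nat.pow_le_pow_right (by norm_num) ih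

lemma le_ex (r x : ℕ) : x + r ≤ ex r x := by
  induction r with
  | zero => exact le_rfl
  | succ r ih => rw [ex_succ]; have := @Nat.lt_two_pow_self (ex r x); omega

lemma dg_lt (r : ℕ) : 2 ≤ dg r ∧ dg r < dg (r + 1) := by
  have key : ∀ x, 2 ≤ x → x < 2 ^ x - 1 := by
    intro x hx
    obtain ⟨y, rfl⟩ : ∃ y, x = y + 2 := ⟨x - 2, by omega⟩
    have := @Nat.lt_two_pow_self y
    rw [pow_add]; omega
  induction r with
  | zero => exact ⟨by decide, by rw [dg_succ]; exact key _ (by decide)⟩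
  | succ r ih => exact ⟨by omega, by rw [dg_succ (r + 1)]; exact key _ (by omega)⟩

lemma dg_le (r : ℕ) : dg r ≤ ex r 15 := by
  induction r with
  | zero => exact le_rfl
  | succ r ih =>
    rw [dg_succ, ex_succ]
    exact (Nat.sub_le _ _).trans (Nat.pow_le_pow_right (by norm_num) ih)

lemma tower (r : ℕ) : ∀ t, 0 < t → t ≤ 2 ^ (2 * (ex r 4 + 2) + 1) →
    ¬ (X ^ dg r + X ^ 1 + 1 : F[X]) ∣ X ^ t + 1 := by
  induction r with
  | zero => exact base
  | succ r ih =>
    intro t h1 h2 h3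
    have h4 := lift_order (by have := dg_lt r; omega) one_pos ih t h1 (by rwa [dg_succ] at h3)
    have h5 := (Nat.pow_le_pow_iff_right (by norm_num)).1 (h4.trans h2)
    have h6 : 2 ^ 4 ≤ 2 ^ ex r 4 :=
      Nat.pow_le_pow_right (by norm_num) (by have := le_ex r 4; omega)
    rw [ex_succ, pow_add] at h5
    omega

lemma ex_le (r : ℕ) : ex r 16 ≤ 2 ^ (2 * (ex r 4 + 2) + 1) := by
  rw [show 16 = 2 ^ 4 by norm_num, ← ex_succ', ex_succ]
  exact Nat.pow_le_pow_right (by norm_num) (by omega)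

lemma pow_le (i : ℕ) : (ex (i + 2) 15) ^ (i + 2) ≤ ex (i + 2) 16 := by
  induction i with
  | zero =>
    rw [zero_add, ex_succ, ex_succ 1 16, ← pow_mul]
    exact Nat.pow_le_pow_right (by norm_num) (by simp [ex])
  | succ i ih =>
    rw [show i + 1 + 2 = (i + 2) + 1 by ring, ex_succ, ex_succ (i + 2) 16, ← pow_mul]
    refine Nat.pow_le_pow_right (by norm_num) (le_trans ?_ ih)
    have h := le_ex (i + 2) 15
    generalize ex (i + 2) 15 = y at h ⊢
    calc y * (i + 2 + 1) ≤ y * y := Nat.mul_le_mul_left _ (by omega)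
      _ = y ^ 2 := by ring
      _ ≤ _ := Nat.pow_le_pow_right (by omega) (by omega)

lemma log_le (j : ℕ) : ∀ {n y : ℕ}, n ≤ ex j y → (Nat.log 2)^[j] n ≤ y := by
  induction j with
  | zero => exact fun h => h
  | succ j ih =>
    intro n y h
    rw [Function.iterate_succ_apply]
    apply ih
    rw [ex_succ] at h
    simpa using Nat.log_mono_right (b := 2) h

lemma bound (j c i : ℕ) {x : ℕ} (hx : x ≤ ex (c + i + 2) 15) :
    ex j (x ^ c) ≤ 2 ^ (2 * (ex (j + (c + i + 2)) 4 + 2) + 1) := by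
  refine le_trans ?_ (ex_le _)
  rw [ex_add]
  refine ex_mono _ (le_trans ?_ (pow_le (c + i)))
  have h := le_ex (c + i + 2) 15
  exact (Nat.pow_le_pow_left hx _).trans (Nat.pow_le_pow_right (by omega) (by omega))

lemma dg_inj : Function.Injective dg := (strictMono_nat_of_lt_succ fun r => (dg_lt r).2).injective

end Pool.Agent.MP_dfda4f_nt
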