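import Mathlib
import Pool.Agent.MP_dfda4f_nt.Tower

open Polynomial Pool.Agent.MP_dfda4f_nt

theorem Pool.Agent.MP_dfda4f_nt.tower_factor (j c : ℕ) :
    Set.Infinite {n : ℕ | ∃ p : (ZMod 2)[X], Irreducible p ∧ p ∣ X ^ n + X + 1 ∧
      (fun x : ℕ => 2 ^ x)^[j] (((Nat.log 2)^[j + 1] n) ^ c) < p.natDegree} := by
  refine Set.infinite_of_injective_forall_mem (f := fun i => dg (j + (c + i + 2) + 1))
    (fun i i' h => by have := dg_inj h; omega) fun i => ?_
  obtain ⟨p, hp, hd, hlt⟩ := lift_factor (by have := dg_lt (j + (c + i + 2)); omega) one_pos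
    (by positivity) (tower (j + (c + i + 2)))
  refine ⟨p, hp, ?_, lt_of_le_of_lt (bound j c i (log_le (j + 1) ?_)) hlt⟩
  · rw [dg_succ]; simpa using hd
  · rw [← ex_add, show j + 1 + (c + i + 2) = j + (c + i + 2) + 1 by ring]; exact dg_le _
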